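import Pool.Agent.Helper43_TP.Count

set_option autoImplicit false

/-! The brackets. -/

namespace Pool.Agent.Helper43_TP

open Finset LaurentPolynomial
open Pool.Agent.H891R2.HO
open Pool.Agent.Helper43_HT (addl addl_iff total Labels card_addl Spherical Opened Other)

variable {k : ℕ}

/-- the state with given values at `i₀`, `i₁`, `i₂` -/
def st (i₀ i₁ i₂ : Fin k) (t : Rest i₀ i₁ i₂ → Bool) (x y z : Bool) (i : Fin k) : Bool :=
  if h : i ≠ i₀ ∧ i ≠ i₁ ∧ i ≠ i₂ then t ⟨i, h⟩ else if i = i₀ then x else if i = i₁ then y else z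

theorem st_rest (i₀ i₁ i₂ : Fin k) (t : Rest i₀ i₁ i₂ → Bool) (x y z : Bool) (i : Rest i₀ i₁ i₂) :
    st i₀ i₁ i₂ t x y z i = t i := by
  unfold st
  rw [dif_pos i.2]

theorem st_zero (i₀ i₁ i₂ : Fin k) (t : Rest i₀ i₁ i₂ → Bool) (x y z : Bool) :
    st i₀ i₁ i₂ t x y z i₀ = x := by
  unfold st
  simp

theorem st_one (i₀ i₁ i₂ : Fin k) (n1 : i₀ ≠ i₁) (t : Rest i₀ i₁ i₂ → Bool) (x y z : Bool) :
    st i₀ i₁ i₂ t x y z i₁ = y := by
  unfold st
  simp [Ne.symm n1]

theorem st_two (i₀ i₁ i₂ : Fin k) (n2 : i₀ ≠ i₂) (n3 : i₁ ≠ i₂) (t : Rest i₀ i₁ i₂ → Bool)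
    (x y z : Bool) : st i₀ i₁ i₂ t x y z i₂ = z := by
  unfold st
  simp [Ne.symm n2, Ne.symm n3]

/-- states of all crossings -/
def stEquiv (i₀ i₁ i₂ : Fin k) (n1 : i₀ ≠ i₁) (n2 : i₀ ≠ i₂) (n3 : i₁ ≠ i₂) :
    ((Rest i₀ i₁ i₂ → Bool) × (Bool × Bool × Bool)) ≃ (Fin k → Bool) where
  toFun p := st i₀ i₁ i₂ p.1 p.2.1 p.2.2.1 p.2.2.2
  invFun S := (fun i => S i, (S i₀, S i₁, S i₂))
  left_inv p := by
    obtain ⟨t, x, y, z⟩ := p
    simp only [st_two i₀ i₁ i₂ n2 n3, st_one i₀ i₁ i₂ n1, st_zero]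
    congr 1
    funext i
    exact st_rest i₀ i₁ i₂ t x y z i
  right_inv S := by
    funext i
    by_cases h0 : i = i₀
    · subst h0; exact st_zero _ _ _ _ _ _ _
    · by_cases h1 : i = i₁
      · subst h1; exact st_one _ _ _ n1 _ _ _ _
      · by_cases h2 : i = i₂
        · subst h2; exact st_two _ _ _ n2 n3 _ _ _ _
        · exact st_rest i₀ i₁ i₂ (fun i => S i) (S i₀) (S i₁) (S i₂) ⟨i, h0, h1, h2⟩

theorem sum_st (i₀ i₁ i₂ : Fin k) (n1 : i₀ ≠ i₁) (n2 : i₀ ≠ i₂) (n3 : i₁ ≠ i₂)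
    (F : (Fin k → Bool) → ℤ[T;T⁻¹]) :
    ∑ S, F S = ∑ t : Rest i₀ i₁ i₂ → Bool,
      (F (st i₀ i₁ i₂ t true true true) + F (st i₀ i₁ i₂ t true true false) +
      (F (st i₀ i₁ i₂ t true false true) + F (st i₀ i₁ i₂ t true false false)) +
      (F (st i₀ i₁ i₂ t false true true) + F (st i₀ i₁ i₂ t false true false) +
      (F (st i₀ i₁ i₂ t false false true) + F (st i₀ i₁ i₂ t false false false)))) := by
  rw [← (stEquiv i₀ i₁ i₂ n1 n2 n3).sum_comp F, Fintype.sum_prod_type]
  refine Finset.sum_congr rfl fun t _ => ?_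
  simp only [Fintype.sum_prod_type, Fintype.sum_bool]
  rfl

theorem sum_rest (i₀ i₁ i₂ : Fin k) (n1 : i₀ ≠ i₁) (n2 : i₀ ≠ i₂) (n3 : i₁ ≠ i₂) (g : Fin k → ℤ) :
    ∑ i, g i = g i₀ + g i₁ + g i₂ + ∑ i : Rest i₀ i₁ i₂, g i := by
  classical
  rw [← Finset.sum_filter_add_sum_filter_not univ (fun i => i ≠ i₀ ∧ i ≠ i₁ ∧ i ≠ i₂) g]
  have h1 : ∑ i ∈ univ.filter (fun i => i ≠ i₀ ∧ i ≠ i₁ ∧ i ≠ i₂), g i =
      ∑ i : Rest i₀ i₁ i₂, g i :=
    Finset.sum_subtype _ (by simp) g
  have h2 : univ.filter (fun i : Fin k => ¬ (i ≠ i₀ ∧ i ≠ i₁ ∧ i ≠ i₂)) = {i₀, i₁, i₂} := by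
    ext i
    simp only [Finset.mem_filter, Finset.mem_univ, true_and, Finset.mem_insert, Finset.mem_singleton]
    tauto
  rw [h1, h2, Finset.sum_insert (by simp [n1, n2]), Finset.sum_pair n3]
  ring

/-- the weight of a state of the other crossings -/
def wt (w : Fin k → Bool) (i₀ i₁ i₂ : Fin k) (t : Rest i₀ i₁ i₂ → Bool) : ℤ :=
  ∑ i, if t i = w i then 1 else -1

/-- the sign of a smoothing -/
def cs (x : Bool) : ℤ := if x = true then 1 else -1

theorem wt_true (w : Fin k → Bool) (i₀ i₁ i₂ : Fin k) (n1 : i₀ ≠ i₁) (n2 : i₀ ≠ i₂) (n3 : i₁ ≠ i₂)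
    (w0 : w i₀ = true) (w1 : w i₁ = true) (w2 : w i₂ = true) (t : Rest i₀ i₁ i₂ → Bool)
    (x y z : Bool) :
    (∑ i, if st i₀ i₁ i₂ t x y z i = w i then (1 : ℤ) else -1) =
      (cs x + cs y + cs z) + wt w i₀ i₁ i₂ t := by
  rw [sum_rest i₀ i₁ i₂ n1 n2 n3, st_zero, st_one i₀ i₁ i₂ n1, st_two i₀ i₁ i₂ n2 n3, w0, w1, w2]
  congr 1
  unfold wt
  exact Finset.sum_congr rfl fun i _ => by rw [st_rest]

theorem wt_false (w w' : Fin k → Bool) (i₀ i₁ i₂ : Fin k) (n1 : i₀ ≠ i₁) (n2 : i₀ ≠ i₂)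
    (n3 : i₁ ≠ i₂) (w0 : w' i₀ = false) (w1 : w' i₁ = false) (w2 : w' i₂ = false)
    (hw : ∀ i : Rest i₀ i₁ i₂, w' i = w i) (t : Rest i₀ i₁ i₂ → Bool) (x y z : Bool) :
    (∑ i, if st i₀ i₁ i₂ t x y z i = w' i then (1 : ℤ) else -1) =
      -(cs x + cs y + cs z) + wt w i₀ i₁ i₂ t := by
  rw [sum_rest i₀ i₁ i₂ n1 n2 n3, st_zero, st_one i₀ i₁ i₂ n1, st_two i₀ i₁ i₂ n2 n3, w0, w1, w2]
  congr 1
  · unfold cs
    cases x <;> cases y <;> cases z <;> simp
  · unfold wt
    exact Finset.sum_congr rfl fun i _ => by rw [st_rest, hw]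

theorem noTriple (G : Shadow k) (hG : G.Checkerboard) (hK : G.IsKnot) (hS : Spherical G)
    (i₀ i₁ i₂ : Fin k) (n1 : i₀ ≠ i₁) (n2 : i₀ ≠ i₂) (n3 : i₁ ≠ i₂)
    (a01 : G.arc (i₀, 1) = (i₁, 3)) (a12 : G.arc (i₁, 2) = (i₂, 1))
    (a20 : G.arc (i₂, 0) = (i₀, 2)) (s : Fin k → Bool) :
    ¬ Labels (OpenedP G (Zv (vv i₀ i₁ i₂)) s) (cor (vv i₀ i₁ i₂)) (lab 1 2 0) := by
  intro hL
  set u : Fin k → Bool := Function.update s i₂ false with hu
  have hn := Pool.Agent.Helper43_HT.noTriple G hG hK hS i₀ i₁ n1 a01 (fun i => u i)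
  have hu2 : u i₂ = false := by rw [hu, Function.update_self]
  have lift : ∀ c c', Quot.mk (OpenedP G (Zv (vv i₀ i₁ i₂)) s) c =
      Quot.mk (OpenedP G (Zv (vv i₀ i₁ i₂)) s) c' →
      Quot.mk (Opened G i₀ i₁ (fun i => u i)) c = Quot.mk (Opened G i₀ i₁ (fun i => u i)) c' := by
    intro c c' h
    have hw : ∀ c c', OpenedP G (Zv (vv i₀ i₁ i₂)) s c c' →
        Quot.mk (Opened G i₀ i₁ (fun i => u i)) c = Quot.mk (Opened G i₀ i₁ (fun i => u i)) c' := by
      rintro c c' (h | ⟨hZ, h⟩)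
      · exact Quot.sound (Or.inl h)
      · apply Quot.sound
        rw [Pool.Agent.Helper43_HT.opened_iff]
        rw [nzv_iff] at hZ
        refine Or.inr ⟨⟨hZ.1, hZ.2.1⟩, ?_⟩
        rw [h, hu, Function.update_of_ne hZ.2.2]
    exact congrArg (Quot.lift (fun x => Quot.mk (Opened G i₀ i₁ (fun i => u i)) x) hw) h
  have sm : ∀ j, Quot.mk (Opened G i₀ i₁ (fun i => u i)) (i₂, j) =
      Quot.mk (Opened G i₀ i₁ (fun i => u i)) (i₂, pair false j) := by
    intro j
    apply Quot.sound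
    rw [Pool.Agent.Helper43_HT.opened_iff]
    refine Or.inr ⟨⟨Ne.symm n2, Ne.symm n3⟩, ?_⟩
    show (i₂, pair false j) = (i₂, pair (u i₂) j)
    rw [hu2]
  have b1 : Quot.mk (Opened G i₀ i₁ (fun i => u i)) (i₂, 0) =
      Quot.mk (Opened G i₀ i₁ (fun i => u i)) (i₀, 2) := Quot.sound (Or.inl a20.symm)
  have b2 : Quot.mk (Opened G i₀ i₁ (fun i => u i)) (i₁, 2) =
      Quot.mk (Opened G i₀ i₁ (fun i => u i)) (i₂, 1) := Quot.sound (Or.inl a12.symm)
  have c1 : Quot.mk (Opened G i₀ i₁ (fun i => u i)) (i₀, 3) =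
      Quot.mk (Opened G i₀ i₁ (fun i => u i)) (i₁, 1) := lift _ _ ((hL (0, 3) (1, 1)).2 (by decide))
  have c2 : Quot.mk (Opened G i₀ i₁ (fun i => u i)) (i₂, 3) =
      Quot.mk (Opened G i₀ i₁ (fun i => u i)) (i₁, 0) := lift _ _ ((hL (2, 3) (1, 0)).2 (by decide))
  have c3 : Quot.mk (Opened G i₀ i₁ (fun i => u i)) (i₂, 2) =
      Quot.mk (Opened G i₀ i₁ (fun i => u i)) (i₀, 0) := lift _ _ ((hL (2, 2) (0, 0)).2 (by decide))
  refine hn ⟨c1, ?_, ?_⟩
  · exact b1.symm.trans ((sm 0).trans c2)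
  · exact b2.trans ((sm 1).trans c3)

/-- the identity for one state of the classical crossings -/
theorem key (G : Shadow k) (hG : G.Checkerboard) (hK : G.IsKnot) (hS : Spherical G)
    (i₀ i₁ i₂ : Fin k) (n1 : i₀ ≠ i₁) (n2 : i₀ ≠ i₂) (n3 : i₁ ≠ i₂)
    (a01 : G.arc (i₀, 1) = (i₁, 3)) (a12 : G.arc (i₁, 2) = (i₂, 1))
    (a20 : G.arc (i₂, 0) = (i₀, 2)) (t : Rest i₀ i₁ i₂ → Bool) :
    (dd ^ 2 - 2) * dd ^ (G.loops (st i₀ i₁ i₂ t true true true) - 1) +
      (-dd) * dd ^ (G.loops (st i₀ i₁ i₂ t true true false) - 1) +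
      ((-dd) * dd ^ (G.loops (st i₀ i₁ i₂ t true false true) - 1) +
      2 * dd ^ (G.loops (st i₀ i₁ i₂ t true false false) - 1)) +
      ((-dd) * dd ^ (G.loops (st i₀ i₁ i₂ t false true true) - 1) +
      2 * dd ^ (G.loops (st i₀ i₁ i₂ t false true false) - 1) +
      (2 * dd ^ (G.loops (st i₀ i₁ i₂ t false false true) - 1) +
      (-dd) * dd ^ (G.loops (st i₀ i₁ i₂ t false false false) - 1))) =
      -((dd ^ 2 - 2) * dd ^ (loopsV G i₀ i₁ i₂ t - 1)) := by
  set s : Fin k → Bool := st i₀ i₁ i₂ t true true true with hs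
  have hst : (fun i : Rest i₀ i₁ i₂ => s i) = t := by
    funext i
    exact st_rest _ _ _ _ _ _ _ i
  have hv : Function.Injective (vv i₀ i₁ i₂) := by
    intro a b h
    fin_cases a <;> fin_cases b <;> simp_all [vv, Ne.symm n1, Ne.symm n2, Ne.symm n3]
  obtain ⟨l0, l1, l2, hc, hL⟩ := labels_cases G hG (vv i₀ i₁ i₂) hv a01 a12 a20 s
  set v := vv i₀ i₁ i₂ with hvd
  have ha : ∀ x y z, G.loops (st i₀ i₁ i₂ t x y z) + total (lab l0 l1 l2) (lst x y z) =
      Nat.card (Quot (OpenedP G (Zv v) s)) := by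
    intro x y z
    have e := loops_addl G v (st i₀ i₁ i₂ t x y z) s (by
      intro i hi
      rw [hvd, nzv_iff] at hi
      rw [hs, st_rest i₀ i₁ i₂ t x y z ⟨i, hi⟩, st_rest i₀ i₁ i₂ t true true true ⟨i, hi⟩])
    have e0 : st i₀ i₁ i₂ t x y z (v 0) = x := st_zero _ _ _ _ _ _ _
    have e1 : st i₀ i₁ i₂ t x y z (v 1) = y := st_one _ _ _ n1 _ _ _ _
    have e2 : st i₀ i₁ i₂ t x y z (v 2) = z := st_two _ _ _ n2 n3 _ _ _ _
    rw [e0, e1, e2] at e
    rw [e]
    exact card_addl (cor v) (lst x y z) _ _ hL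
  have hb : loopsV G i₀ i₁ i₂ t + total (lab l0 l1 l2) lstV =
      Nat.card (Quot (OpenedP G (Zv v) s)) := by
    have e := loopsV_addl G i₀ i₁ i₂ s
    rw [hst] at e
    rw [e]
    exact card_addl (cor v) lstV _ _ hL
  have hp : ∀ x y z, 0 < G.loops (st i₀ i₁ i₂ t x y z) := fun x y z => O3.loops_pos G i₀ _
  have q1 := ha true true true
  have q2 := ha true true false
  have q3 := ha true false true
  have q4 := ha true false false
  have q5 := ha false true true
  have q6 := ha false true false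
  have q7 := ha false false true
  have q8 := ha false false false
  have q9 := hb
  have p1 := hp true true true
  have p2 := hp true true false
  have p3 := hp true false true
  have p4 := hp true false false
  have p5 := hp false true true
  have p6 := hp false true false
  have p7 := hp false false true
  have p8 := hp false false false
  rw [hs] at *
  generalize Nat.card (Quot (OpenedP G (Zv v) (st i₀ i₁ i₂ t true true true))) = N at q1 q2 q3 q4 q5 q6 q7 q8 q9
  rcases hc with ⟨rfl, rfl, rfl⟩ | ⟨rfl, rfl, rfl⟩ | ⟨rfl, rfl, rfl⟩ | ⟨rfl, rfl, rfl⟩ |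
    ⟨rfl, rfl, rfl⟩ | ⟨rfl, rfl, rfl⟩
  · -- 0 1 2
    have t1 : total (lab 0 1 2) (lst true true true) = 3 := by decide
    have t2 : total (lab 0 1 2) (lst true true false) = 4 := by decide
    have t3 : total (lab 0 1 2) (lst true false true) = 4 := by decide
    have t4 : total (lab 0 1 2) (lst true false false) = 5 := by decide
    have t5 : total (lab 0 1 2) (lst false true true) = 2 := by decide
    have t6 : total (lab 0 1 2) (lst false true false) = 3 := by decide
    have t7 : total (lab 0 1 2) (lst false false true) = 3 := by decide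
    have t8 : total (lab 0 1 2) (lst false false false) = 4 := by decide
    have t9 : total (lab 0 1 2) lstV = 5 := by decide
    rw [t1] at q1; rw [t2] at q2; rw [t3] at q3; rw [t4] at q4; rw [t5] at q5; rw [t6] at q6
    rw [t7] at q7; rw [t8] at q8; rw [t9] at q9
    obtain ⟨l, hl⟩ : ∃ l, N = l + 6 := ⟨N - 6, by omega⟩
    have r1 : G.loops (st i₀ i₁ i₂ t true true true) - 1 = l + 2 := by omega
    have r2 : G.loops (st i₀ i₁ i₂ t true true false) - 1 = l + 1 := by omega
    have r3 : G.loops (st i₀ i₁ i₂ t true false true) - 1 = l + 1 := by omega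
    have r4 : G.loops (st i₀ i₁ i₂ t true false false) - 1 = l + 0 := by omega
    have r5 : G.loops (st i₀ i₁ i₂ t false true true) - 1 = l + 3 := by omega
    have r6 : G.loops (st i₀ i₁ i₂ t false true false) - 1 = l + 2 := by omega
    have r7 : G.loops (st i₀ i₁ i₂ t false false true) - 1 = l + 2 := by omega
    have r8 : G.loops (st i₀ i₁ i₂ t false false false) - 1 = l + 1 := by omega
    have r9 : loopsV G i₀ i₁ i₂ t - 1 = l + 0 := by omega
    rw [r1, r2, r3, r4, r5, r6, r7, r8, r9]; ring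
  · -- 0 2 1
    have t1 : total (lab 0 2 1) (lst true true true) = 4 := by decide
    have t2 : total (lab 0 2 1) (lst true true false) = 5 := by decide
    have t3 : total (lab 0 2 1) (lst true false true) = 5 := by decide
    have t4 : total (lab 0 2 1) (lst true false false) = 4 := by decide
    have t5 : total (lab 0 2 1) (lst false true true) = 3 := by decide
    have t6 : total (lab 0 2 1) (lst false true false) = 4 := by decide
    have t7 : total (lab 0 2 1) (lst false false true) = 4 := by decide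
    have t8 : total (lab 0 2 1) (lst false false false) = 3 := by decide
    have t9 : total (lab 0 2 1) lstV = 4 := by decide
    rw [t1] at q1; rw [t2] at q2; rw [t3] at q3; rw [t4] at q4; rw [t5] at q5; rw [t6] at q6
    rw [t7] at q7; rw [t8] at q8; rw [t9] at q9
    obtain ⟨l, hl⟩ : ∃ l, N = l + 6 := ⟨N - 6, by omega⟩
    have r1 : G.loops (st i₀ i₁ i₂ t true true true) - 1 = l + 1 := by omega
    have r2 : G.loops (st i₀ i₁ i₂ t true true false) - 1 = l + 0 := by omega
    have r3 : G.loops (st i₀ i₁ i₂ t true false true) - 1 = l + 0 := by omega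
    have r4 : G.loops (st i₀ i₁ i₂ t true false false) - 1 = l + 1 := by omega
    have r5 : G.loops (st i₀ i₁ i₂ t false true true) - 1 = l + 2 := by omega
    have r6 : G.loops (st i₀ i₁ i₂ t false true false) - 1 = l + 1 := by omega
    have r7 : G.loops (st i₀ i₁ i₂ t false false true) - 1 = l + 1 := by omega
    have r8 : G.loops (st i₀ i₁ i₂ t false false false) - 1 = l + 2 := by omega
    have r9 : loopsV G i₀ i₁ i₂ t - 1 = l + 1 := by omega
    rw [r1, r2, r3, r4, r5, r6, r7, r8, r9]; ring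
  · -- 1 0 2
    have t1 : total (lab 1 0 2) (lst true true true) = 4 := by decide
    have t2 : total (lab 1 0 2) (lst true true false) = 5 := by decide
    have t3 : total (lab 1 0 2) (lst true false true) = 3 := by decide
    have t4 : total (lab 1 0 2) (lst true false false) = 4 := by decide
    have t5 : total (lab 1 0 2) (lst false true true) = 3 := by decide
    have t6 : total (lab 1 0 2) (lst false true false) = 4 := by decide
    have t7 : total (lab 1 0 2) (lst false false true) = 4 := by decide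
    have t8 : total (lab 1 0 2) (lst false false false) = 5 := by decide
    have t9 : total (lab 1 0 2) lstV = 4 := by decide
    rw [t1] at q1; rw [t2] at q2; rw [t3] at q3; rw [t4] at q4; rw [t5] at q5; rw [t6] at q6
    rw [t7] at q7; rw [t8] at q8; rw [t9] at q9
    obtain ⟨l, hl⟩ : ∃ l, N = l + 6 := ⟨N - 6, by omega⟩
    have r1 : G.loops (st i₀ i₁ i₂ t true true true) - 1 = l + 1 := by omega
    have r2 : G.loops (st i₀ i₁ i₂ t true true false) - 1 = l + 0 := by omega
    have r3 : G.loops (st i₀ i₁ i₂ t true false true) - 1 = l + 2 := by omega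
    have r4 : G.loops (st i₀ i₁ i₂ t true false false) - 1 = l + 1 := by omega
    have r5 : G.loops (st i₀ i₁ i₂ t false true true) - 1 = l + 2 := by omega
    have r6 : G.loops (st i₀ i₁ i₂ t false true false) - 1 = l + 1 := by omega
    have r7 : G.loops (st i₀ i₁ i₂ t false false true) - 1 = l + 1 := by omega
    have r8 : G.loops (st i₀ i₁ i₂ t false false false) - 1 = l + 0 := by omega
    have r9 : loopsV G i₀ i₁ i₂ t - 1 = l + 1 := by omega
    rw [r1, r2, r3, r4, r5, r6, r7, r8, r9]; ring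
  · -- 2 0 1
    have t1 : total (lab 2 0 1) (lst true true true) = 5 := by decide
    have t2 : total (lab 2 0 1) (lst true true false) = 4 := by decide
    have t3 : total (lab 2 0 1) (lst true false true) = 4 := by decide
    have t4 : total (lab 2 0 1) (lst true false false) = 3 := by decide
    have t5 : total (lab 2 0 1) (lst false true true) = 4 := by decide
    have t6 : total (lab 2 0 1) (lst false true false) = 5 := by decide
    have t7 : total (lab 2 0 1) (lst false false true) = 5 := by decide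
    have t8 : total (lab 2 0 1) (lst false false false) = 4 := by decide
    have t9 : total (lab 2 0 1) lstV = 5 := by decide
    rw [t1] at q1; rw [t2] at q2; rw [t3] at q3; rw [t4] at q4; rw [t5] at q5; rw [t6] at q6
    rw [t7] at q7; rw [t8] at q8; rw [t9] at q9
    obtain ⟨l, hl⟩ : ∃ l, N = l + 6 := ⟨N - 6, by omega⟩
    have r1 : G.loops (st i₀ i₁ i₂ t true true true) - 1 = l + 0 := by omega
    have r2 : G.loops (st i₀ i₁ i₂ t true true false) - 1 = l + 1 := by omega
    have r3 : G.loops (st i₀ i₁ i₂ t true false true) - 1 = l + 1 := by omega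
    have r4 : G.loops (st i₀ i₁ i₂ t true false false) - 1 = l + 2 := by omega
    have r5 : G.loops (st i₀ i₁ i₂ t false true true) - 1 = l + 1 := by omega
    have r6 : G.loops (st i₀ i₁ i₂ t false true false) - 1 = l + 0 := by omega
    have r7 : G.loops (st i₀ i₁ i₂ t false false true) - 1 = l + 0 := by omega
    have r8 : G.loops (st i₀ i₁ i₂ t false false false) - 1 = l + 1 := by omega
    have r9 : loopsV G i₀ i₁ i₂ t - 1 = l + 0 := by omega
    rw [r1, r2, r3, r4, r5, r6, r7, r8, r9]; ring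
  · -- 2 1 0
    have t1 : total (lab 2 1 0) (lst true true true) = 4 := by decide
    have t2 : total (lab 2 1 0) (lst true true false) = 3 := by decide
    have t3 : total (lab 2 1 0) (lst true false true) = 5 := by decide
    have t4 : total (lab 2 1 0) (lst true false false) = 4 := by decide
    have t5 : total (lab 2 1 0) (lst false true true) = 3 := by decide
    have t6 : total (lab 2 1 0) (lst false true false) = 4 := by decide
    have t7 : total (lab 2 1 0) (lst false false true) = 4 := by decide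
    have t8 : total (lab 2 1 0) (lst false false false) = 5 := by decide
    have t9 : total (lab 2 1 0) lstV = 4 := by decide
    rw [t1] at q1; rw [t2] at q2; rw [t3] at q3; rw [t4] at q4; rw [t5] at q5; rw [t6] at q6
    rw [t7] at q7; rw [t8] at q8; rw [t9] at q9
    obtain ⟨l, hl⟩ : ∃ l, N = l + 6 := ⟨N - 6, by omega⟩
    have r1 : G.loops (st i₀ i₁ i₂ t true true true) - 1 = l + 1 := by omega
    have r2 : G.loops (st i₀ i₁ i₂ t true true false) - 1 = l + 2 := by omega
    have r3 : G.loops (st i₀ i₁ i₂ t true false true) - 1 = l + 0 := by omega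
    have r4 : G.loops (st i₀ i₁ i₂ t true false false) - 1 = l + 1 := by omega
    have r5 : G.loops (st i₀ i₁ i₂ t false true true) - 1 = l + 2 := by omega
    have r6 : G.loops (st i₀ i₁ i₂ t false true false) - 1 = l + 1 := by omega
    have r7 : G.loops (st i₀ i₁ i₂ t false false true) - 1 = l + 1 := by omega
    have r8 : G.loops (st i₀ i₁ i₂ t false false false) - 1 = l + 0 := by omega
    have r9 : loopsV G i₀ i₁ i₂ t - 1 = l + 1 := by omega
    rw [r1, r2, r3, r4, r5, r6, r7, r8, r9]; ring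
  · exact absurd hL (noTriple G hG hK hS i₀ i₁ i₂ n1 n2 n3 a01 a12 a20 _)

end Pool.Agent.Helper43_TP
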