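import Pool.Agent.Helper43_TP.Path
import Pool.Agent.Helper43_HT.Merge

set_option autoImplicit false

/-! The six ways in which the ends around the triangle are joined. -/

namespace Pool.Agent.Helper43_TP

open Finset
open Pool.Agent.H891R2.HO
open Pool.Agent.Helper43_HT (addl addl_iff total Labels card_addl)
open Pool.Agent.H891R2.MT.T2 (card_quot_congr)

variable {k : ℕ}

/-- the vertices of the triangle -/
def Zv (v : Fin 3 → Fin k) (i : Fin k) : Prop := ∃ m, i = v m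

/-- the twelve corners at the triangle -/
def cor (v : Fin 3 → Fin k) (y : Fin 3 × Fin 4) : Fin k × Fin 4 := (v y.1, y.2)

/-- the corners of colour `false` -/
def ent (n : Fin 6) : Fin 3 × Fin 4 := ![(0, 0), (1, 1), (2, 3), (0, 2), (1, 3), (2, 1)] n

/-- the corners of colour `true` -/
def exi (n : Fin 6) : Fin 3 × Fin 4 := ![(0, 3), (1, 0), (2, 2), (2, 0), (0, 1), (1, 2)] n

/-- labels of the classes of the twelve corners -/
def labF (l0 l1 l2 : Fin 6) (y : Fin 3 × Fin 4) : Fin 6 :=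
  if y.1 = 0 then ![0, 4, 3, l0] y.2 else if y.1 = 1 then ![l1, 1, 5, 4] y.2 else ![3, 5, l2, 2] y.2

def lab (l0 l1 l2 : Fin 6) (y : Fin 3 × Fin 4) : ℕ := labF l0 l1 l2 y

theorem ent_inj : ∀ m n : Fin 6, ent m = ent n → m = n := by decide

theorem exi_inj : ∀ m n : Fin 6, exi m = exi n → m = n := by decide

theorem cor_inj (v : Fin 3 → Fin k) (hv : Function.Injective v) (a b : Fin 3 × Fin 4)
    (h : cor v a = cor v b) : a = b := by
  unfold cor at h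
  have h1 := congrArg Prod.fst h
  have h2 := congrArg Prod.snd h
  exact Prod.ext (hv h1) h2

theorem labels_of (G : Shadow k) (v : Fin 3 → Fin k) (s : Fin k → Bool)
    (a01 : G.arc (v 0, 1) = (v 1, 3)) (a12 : G.arc (v 1, 2) = (v 2, 1))
    (a20 : G.arc (v 2, 0) = (v 0, 2))
    (inj : ∀ m n, Quot.mk (OpenedP G (Zv v) s) (cor v (ent m)) =
      Quot.mk (OpenedP G (Zv v) s) (cor v (ent n)) → m = n)
    (l0 l1 l2 : Fin 6)
    (e0 : Quot.mk (OpenedP G (Zv v) s) (v 0, 3) = Quot.mk (OpenedP G (Zv v) s) (cor v (ent l0)))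
    (e1 : Quot.mk (OpenedP G (Zv v) s) (v 1, 0) = Quot.mk (OpenedP G (Zv v) s) (cor v (ent l1)))
    (e2 : Quot.mk (OpenedP G (Zv v) s) (v 2, 2) = Quot.mk (OpenedP G (Zv v) s) (cor v (ent l2))) :
    Labels (OpenedP G (Zv v) s) (cor v) (lab l0 l1 l2) := by
  have hE : ∀ y, Quot.mk (OpenedP G (Zv v) s) (cor v y) =
      Quot.mk (OpenedP G (Zv v) s) (cor v (ent (labF l0 l1 l2 y))) := by
    rintro ⟨m, j⟩
    fin_cases m <;> fin_cases j
    · rfl
    · exact Quot.sound (Or.inl a01.symm)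
    · rfl
    · exact e0
    · exact e1
    · rfl
    · exact Quot.sound (Or.inl a12.symm)
    · rfl
    · exact Quot.sound (Or.inl a20.symm)
    · rfl
    · exact e2
    · rfl
  intro a b
  rw [hE a, hE b]
  constructor
  · intro h
    have := inj _ _ h
    show ((labF l0 l1 l2 a : Fin 6) : ℕ) = ((labF l0 l1 l2 b : Fin 6) : ℕ)
    rw [this]
  · intro h
    have : labF l0 l1 l2 a = labF l0 l1 l2 b := Fin.ext h
    rw [this]

theorem perm_cases : ∀ a b c : Fin 6, (a ≠ 3 ∧ a ≠ 4 ∧ a ≠ 5) → (b ≠ 3 ∧ b ≠ 4 ∧ b ≠ 5) →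
    (c ≠ 3 ∧ c ≠ 4 ∧ c ≠ 5) → (a ≠ b ∧ a ≠ c ∧ b ≠ c) →
    (a = 0 ∧ b = 1 ∧ c = 2) ∨ (a = 0 ∧ b = 2 ∧ c = 1) ∨ (a = 1 ∧ b = 0 ∧ c = 2) ∨
      (a = 1 ∧ b = 2 ∧ c = 0) ∨ (a = 2 ∧ b = 1 ∧ c = 0) ∨ (a = 2 ∧ b = 0 ∧ c = 1) := by
  have one : ∀ a : Fin 6, (a ≠ 3 ∧ a ≠ 4 ∧ a ≠ 5) → a = 0 ∨ a = 1 ∨ a = 2 := by decide
  intro a b c ha hb hc h
  rcases one a ha with rfl | rfl | rfl <;> rcases one b hb with rfl | rfl | rfl <;>
    rcases one c hc with rfl | rfl | rfl <;> simp at h ⊢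

theorem labels_cases (G : Shadow k) (hG : G.Checkerboard) (v : Fin 3 → Fin k)
    (hv : Function.Injective v)
    (a01 : G.arc (v 0, 1) = (v 1, 3)) (a12 : G.arc (v 1, 2) = (v 2, 1))
    (a20 : G.arc (v 2, 0) = (v 0, 2)) (s : Fin k → Bool) :
    ∃ l0 l1 l2 : Fin 6, ((l0 = 0 ∧ l1 = 1 ∧ l2 = 2) ∨ (l0 = 0 ∧ l1 = 2 ∧ l2 = 1) ∨
      (l0 = 1 ∧ l1 = 0 ∧ l2 = 2) ∨ (l0 = 2 ∧ l1 = 0 ∧ l2 = 1) ∨ (l0 = 2 ∧ l1 = 1 ∧ l2 = 0) ∨
      (l0 = 1 ∧ l1 = 2 ∧ l2 = 0)) ∧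
      Labels (OpenedP G (Zv v) s) (cor v) (lab l0 l1 l2) := by
  obtain ⟨χ, h1, h2, h3⟩ : ∃ χ : Fin k × Fin 4 → Bool, (∀ c, χ (G.arc c) = !(χ c)) ∧
      (∀ i j, χ (i, j + 1) = !(χ (i, j))) ∧ χ (v 0, 0) = false := by
    obtain ⟨χ, h1, h2⟩ := hG
    by_cases h : χ (v 0, 0) = false
    · exact ⟨χ, h1, h2, h⟩
    · refine ⟨fun c => !(χ c), fun c => by simp [h1], fun i j => by simp [h2], by simpa using h⟩
  obtain ⟨c01, c02, c03⟩ := Pool.Agent.Helper43_HT.chi_even χ h2 (v 0)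
  obtain ⟨c11, c12, c13⟩ := Pool.Agent.Helper43_HT.chi_even χ h2 (v 1)
  obtain ⟨c21, c22, c23⟩ := Pool.Agent.Helper43_HT.chi_even χ h2 (v 2)
  have d0 : χ (v 1, 3) = !(χ (v 0, 1)) := by rw [← a01, h1]
  have d1 : χ (v 2, 1) = !(χ (v 1, 2)) := by rw [← a12, h1]
  rw [h3] at c01 c02 c03
  rw [c01, c13] at d0
  have c10 : χ (v 1, 0) = true := by simpa using d0
  rw [c10] at c11 c12 c13
  rw [c12, c21] at d1
  have c20 : χ (v 2, 0) = true := by simpa using d1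
  rw [c20] at c21 c22 c23
  have hE : ∀ n, χ (cor v (ent n)) = false := by
    intro n
    fin_cases n
    · exact h3
    · exact c11
    · exact c23
    · exact c02
    · exact c13
    · exact c21
  have hX : ∀ n, χ (cor v (exi n)) = true := by
    intro n
    fin_cases n
    · exact c03
    · exact c10
    · exact c22
    · exact c20
    · exact c01
    · exact c12
  have hcor : ∀ y, AtP (Zv v) (cor v y) := fun y => ⟨y.1, rfl⟩
  have all : ∀ y : Fin 3 × Fin 4, (∃ n, y = ent n) ∨ ∃ n, y = exi n := by decide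
  have exits : ∀ x, χ x = true → AtP (Zv v) x → ∃ n, x = cor v (exi n) := by
    rintro ⟨i, j⟩ hx ⟨m, hm⟩
    have hm' : i = v m := hm
    subst hm'
    rcases all (m, j) with ⟨n, hn⟩ | ⟨n, hn⟩
    · exfalso
      have e : ((v m, j) : Fin k × Fin 4) = cor v (ent n) := by rw [← hn]; rfl
      rw [e, hE] at hx
      exact Bool.false_ne_true hx
    · exact ⟨n, by rw [← hn]; rfl⟩
  have P : ∀ n, ∃ g : Fin 6,
      Quot.mk (OpenedP G (Zv v) s) (cor v (ent n)) = Quot.mk (OpenedP G (Zv v) s) (cor v (exi g)) ∧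
      ∀ c, Quot.mk (OpenedP G (Zv v) s) (cor v (ent n)) = Quot.mk (OpenedP G (Zv v) s) c →
        AtP (Zv v) c → c = cor v (ent n) ∨ c = cor v (exi g) := by
    intro n
    obtain ⟨x, hx, ax, mx, ux⟩ := path G (Zv v) s χ h1 h2 (cor v (ent n)) (hE n) (hcor _)
    obtain ⟨g, rfl⟩ := exits x hx ax
    exact ⟨g, mx, ux⟩
  choose g hg1 hg2 using P
  have hne : ∀ m n, cor v (ent m) ≠ cor v (exi n) := by
    intro m n h
    have := hE m
    rw [h, hX] at this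
    exact absurd this (by decide)
  have inj : ∀ m n, Quot.mk (OpenedP G (Zv v) s) (cor v (ent m)) =
      Quot.mk (OpenedP G (Zv v) s) (cor v (ent n)) → m = n := by
    intro m n h
    rcases hg2 m _ h (hcor _) with h' | h'
    · exact (ent_inj _ _ (cor_inj v hv _ _ h')).symm
    · exact absurd h' (hne _ _)
  have ginj : ∀ m n, g m = g n → m = n := by
    intro m n h
    apply inj
    rw [hg1 m, h, ← hg1 n]
  have gfix : ∀ n, Quot.mk (OpenedP G (Zv v) s) (cor v (ent n)) =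
      Quot.mk (OpenedP G (Zv v) s) (cor v (exi n)) → g n = n := by
    intro n h
    rcases hg2 n _ h (hcor _) with h' | h'
    · exact absurd h'.symm (hne _ _)
    · exact (exi_inj _ _ (cor_inj v hv _ _ h')).symm
  have g3 : g 3 = 3 := gfix 3 (Quot.sound (r := OpenedP G (Zv v) s) (Or.inl a20.symm)).symm
  have g4 : g 4 = 4 := gfix 4 (Quot.sound (r := OpenedP G (Zv v) s) (Or.inl a01.symm)).symm
  have g5 : g 5 = 5 := gfix 5 (Quot.sound (r := OpenedP G (Zv v) s) (Or.inl a12.symm)).symm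
  have gn : ∀ m n : Fin 6, m ≠ n → g n = n → g m ≠ n := by
    intro m n hmn hn h
    exact hmn (ginj m n (h.trans hn.symm))
  have gm : ∀ m n : Fin 6, m ≠ n → g m ≠ g n := fun m n hmn h => hmn (ginj m n h)
  have main := labels_of G v s a01 a12 a20 inj
  have hexi : ∀ n m, g n = m → Quot.mk (OpenedP G (Zv v) s) (cor v (exi m)) =
      Quot.mk (OpenedP G (Zv v) s) (cor v (ent n)) := by
    intro n m h
    rw [← h]; exact (hg1 n).symm
  rcases perm_cases (g 0) (g 1) (g 2)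
    ⟨gn 0 3 (by decide) g3, gn 0 4 (by decide) g4, gn 0 5 (by decide) g5⟩
    ⟨gn 1 3 (by decide) g3, gn 1 4 (by decide) g4, gn 1 5 (by decide) g5⟩
    ⟨gn 2 3 (by decide) g3, gn 2 4 (by decide) g4, gn 2 5 (by decide) g5⟩
    ⟨gm 0 1 (by decide), gm 0 2 (by decide), gm 1 2 (by decide)⟩ with ⟨p, q, r⟩ | ⟨p, q, r⟩ |
    ⟨p, q, r⟩ | ⟨p, q, r⟩ | ⟨p, q, r⟩ | ⟨p, q, r⟩
  · exact ⟨0, 1, 2, by decide, main 0 1 2 (hexi 0 0 p) (hexi 1 1 q) (hexi 2 2 r)⟩
  · exact ⟨0, 2, 1, by decide, main 0 2 1 (hexi 0 0 p) (hexi 2 1 r) (hexi 1 2 q)⟩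
  · exact ⟨1, 0, 2, by decide, main 1 0 2 (hexi 1 0 q) (hexi 0 1 p) (hexi 2 2 r)⟩
  · exact ⟨2, 0, 1, by decide, main 2 0 1 (hexi 2 0 r) (hexi 0 1 p) (hexi 1 2 q)⟩
  · exact ⟨2, 1, 0, by decide, main 2 1 0 (hexi 2 0 r) (hexi 1 1 q) (hexi 0 2 p)⟩
  · exact ⟨1, 2, 0, by decide, main 1 2 0 (hexi 1 0 q) (hexi 2 1 r) (hexi 0 2 p)⟩

end Pool.Agent.Helper43_TP
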