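import Pool.Agent.Helper43_TP.Cases

set_option autoImplicit false

/-! The numbers of circles of the states. -/

namespace Pool.Agent.Helper43_TP

open Finset
open Pool.Agent.H891R2.HO
open Pool.Agent.Helper43_HT (addl addl_iff total Labels card_addl)
open Pool.Agent.H891R2.MT.T2 (card_quot_congr)

variable {k : ℕ}

/-- the pairs of corners joined in the smoothing `x` of the vertex `m` -/
def one (m : Fin 3) (x : Bool) : List ((Fin 3 × Fin 4) × (Fin 3 × Fin 4)) :=
  if x = true then [((m, 0), (m, 1)), ((m, 2), (m, 3))] else [((m, 1), (m, 2)), ((m, 3), (m, 0))]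

/-- the pairs of corners joined in the smoothings `x, y, z` of the vertices -/
def lst (x y z : Bool) : List ((Fin 3 × Fin 4) × (Fin 3 × Fin 4)) := one 0 x ++ (one 1 y ++ one 2 z)

/-- the pairs of corners joined in the virtual diagram -/
def lstV : List ((Fin 3 × Fin 4) × (Fin 3 × Fin 4)) :=
  [((0, 0), (0, 2)), ((0, 1), (0, 3)), ((1, 0), (1, 2)), ((1, 1), (1, 3)), ((2, 0), (2, 2)),
    ((2, 1), (2, 3))]

theorem loops_addl (G : Shadow k) (v : Fin 3 → Fin k) (S s : Fin k → Bool)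
    (hs : ∀ i, ¬ Zv v i → S i = s i) :
    G.loops S = Nat.card (Quot (addl (OpenedP G (Zv v) s) (cor v)
      (lst (S (v 0)) (S (v 1)) (S (v 2))))) := by
  unfold Shadow.loops
  set R := addl (OpenedP G (Zv v) s) (cor v) (lst (S (v 0)) (S (v 1)) (S (v 2))) with hR
  have hl : ∀ p ∈ lst (S (v 0)) (S (v 1)) (S (v 2)), Quot.mk R (cor v p.1) = Quot.mk R (cor v p.2) := by
    intro p hp
    exact Quot.sound ((addl_iff _ _ _ _ _).2 (Or.inr ⟨p, hp, rfl, rfl⟩))
  have hm : ∀ m : Fin 3, ∀ p ∈ one m (S (v m)), Quot.mk R (cor v p.1) = Quot.mk R (cor v p.2) := by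
    intro m p hp
    apply hl
    unfold lst
    fin_cases m
    · exact List.mem_append_left _ hp
    · exact List.mem_append_right _ (List.mem_append_left _ hp)
    · exact List.mem_append_right _ (List.mem_append_right _ hp)
  apply card_quot_congr
  · rintro ⟨i, j⟩ c' (h | h)
    · exact Quot.sound ((addl_iff _ _ _ _ _).2 (Or.inl (Or.inl h)))
    · by_cases hZ : Zv v i
      · obtain ⟨m, rfl⟩ := hZ
        rw [h]
        show Quot.mk R (v m, j) = Quot.mk R (v m, pair (S (v m)) j)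
        have a := hm m
        unfold one at a
        cases hx : S (v m) <;> rw [hx] at a
        · have b1 : Quot.mk R (v m, 1) = Quot.mk R (v m, 2) := a ((m, 1), (m, 2)) (by simp)
          have b2 : Quot.mk R (v m, 3) = Quot.mk R (v m, 0) := a ((m, 3), (m, 0)) (by simp)
          fin_cases j
          · exact b2.symm
          · exact b1
          · exact b1.symm
          · exact b2
        · have b1 : Quot.mk R (v m, 0) = Quot.mk R (v m, 1) := a ((m, 0), (m, 1)) (by simp)
          have b2 : Quot.mk R (v m, 2) = Quot.mk R (v m, 3) := a ((m, 2), (m, 3)) (by simp)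
          fin_cases j
          · exact b1
          · exact b1.symm
          · exact b2
          · exact b2.symm
      · refine Quot.sound ((addl_iff _ _ _ _ _).2 (Or.inl (Or.inr ⟨hZ, ?_⟩)))
        rw [h]
        show (i, pair (S i) j) = (i, pair (s i) j)
        rw [hs i hZ]
  · intro c c' h
    rw [hR, addl_iff] at h
    rcases h with (h | ⟨hZ, h'⟩) | ⟨p, hp, rfl, rfl⟩
    · exact Quot.sound (Or.inl h)
    · exact Quot.sound (Or.inr (by rw [h', hs _ hZ]))
    · refine Quot.sound (Or.inr ?_)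
      have hp' : ∃ m, p ∈ one m (S (v m)) := by
        unfold lst at hp
        simp only [List.mem_append] at hp
        rcases hp with hp | hp | hp
        exacts [⟨0, hp⟩, ⟨1, hp⟩, ⟨2, hp⟩]
      obtain ⟨m, hp⟩ := hp'
      unfold one at hp
      cases hx : S (v m)
      · rw [hx] at hp
        simp at hp
        rcases hp with rfl | rfl
        · show (v m, _) = (v m, pair (S (v m)) _)
          rw [hx]; rfl
        · show (v m, _) = (v m, pair (S (v m)) _)
          rw [hx]; rfl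
      · rw [hx] at hp
        simp at hp
        rcases hp with rfl | rfl
        · show (v m, _) = (v m, pair (S (v m)) _)
          rw [hx]; rfl
        · show (v m, _) = (v m, pair (S (v m)) _)
          rw [hx]; rfl

/-- the three vertices -/
def vv (i₀ i₁ i₂ : Fin k) : Fin 3 → Fin k := ![i₀, i₁, i₂]

theorem zv_iff (i₀ i₁ i₂ i : Fin k) : Zv (vv i₀ i₁ i₂) i ↔ i = i₀ ∨ i = i₁ ∨ i = i₂ := by
  unfold Zv vv
  constructor
  · rintro ⟨m, hm⟩
    fin_cases m
    · exact Or.inl hm
    · exact Or.inr (Or.inl hm)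
    · exact Or.inr (Or.inr hm)
  · rintro (h | h | h)
    · exact ⟨0, h⟩
    · exact ⟨1, h⟩
    · exact ⟨2, h⟩

theorem nzv_iff (i₀ i₁ i₂ i : Fin k) : ¬ Zv (vv i₀ i₁ i₂) i ↔ i ≠ i₀ ∧ i ≠ i₁ ∧ i ≠ i₂ := by
  rw [zv_iff]; tauto

theorem loopsV_addl (G : Shadow k) (i₀ i₁ i₂ : Fin k) (s : Fin k → Bool) :
    loopsV G i₀ i₁ i₂ (fun i => s i) =
      Nat.card (Quot (addl (OpenedP G (Zv (vv i₀ i₁ i₂)) s) (cor (vv i₀ i₁ i₂)) lstV)) := by
  set v := vv i₀ i₁ i₂ with hv
  unfold loopsV
  set R := addl (OpenedP G (Zv v) s) (cor v) lstV with hR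
  have hl : ∀ p ∈ lstV, Quot.mk R (cor v p.1) = Quot.mk R (cor v p.2) := by
    intro p hp
    exact Quot.sound ((addl_iff _ _ _ _ _).2 (Or.inr ⟨p, hp, rfl, rfl⟩))
  apply card_quot_congr
  · rintro ⟨i, j⟩ c' (h | ⟨hZ, h⟩ | ⟨hZ, h⟩)
    · exact Quot.sound ((addl_iff _ _ _ _ _).2 (Or.inl (Or.inl h)))
    · exact Quot.sound ((addl_iff _ _ _ _ _).2 (Or.inl (Or.inr ⟨(nzv_iff _ _ _ _).2 hZ, h⟩)))
    · rw [h]
      have hb : ∃ m, i = v m ∧ Quot.mk R (v m, 0) = Quot.mk R (v m, 2) ∧
          Quot.mk R (v m, 1) = Quot.mk R (v m, 3) := by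
        rcases hZ with hZ | hZ | hZ
        · exact ⟨0, hZ, hl ((0, 0), (0, 2)) (by decide), hl ((0, 1), (0, 3)) (by decide)⟩
        · exact ⟨1, hZ, hl ((1, 0), (1, 2)) (by decide), hl ((1, 1), (1, 3)) (by decide)⟩
        · exact ⟨2, hZ, hl ((2, 0), (2, 2)) (by decide), hl ((2, 1), (2, 3)) (by decide)⟩
      obtain ⟨m, rfl, b1, b2⟩ := hb
      fin_cases j
      · exact b1
      · exact b2
      · exact b1.symm
      · exact b2.symm
  · intro c c' h
    rw [hR, addl_iff] at h
    rcases h with (h | ⟨hZ, h'⟩) | ⟨p, hp, rfl, rfl⟩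
    · exact Quot.sound (Or.inl h)
    · exact Quot.sound (Or.inr (Or.inl ⟨(nzv_iff _ _ _ _).1 hZ, h'⟩))
    · refine Quot.sound (Or.inr (Or.inr ?_))
      unfold lstV at hp
      simp only [List.mem_cons, List.not_mem_nil, or_false] at hp
      rcases hp with rfl | rfl | rfl | rfl | rfl | rfl
      · exact ⟨Or.inl rfl, rfl⟩
      · exact ⟨Or.inl rfl, rfl⟩
      · exact ⟨Or.inr (Or.inl rfl), rfl⟩
      · exact ⟨Or.inr (Or.inl rfl), rfl⟩
      · exact ⟨Or.inr (Or.inr rfl), rfl⟩
      · exact ⟨Or.inr (Or.inr rfl), rfl⟩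

end Pool.Agent.Helper43_TP
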