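import Pool.Agent.Helper43_HT.Final

set_option autoImplicit false

/-!
# Virtual knot diagrams with one virtual triple point

We use the starting library `Pool.Agent.H891R2.HO.Defs`: `Shadow k` (shadows of link diagrams with `k`
crossings; the corners of the crossing `i` are `(i, 0), (i, 1), (i, 2), (i, 3)` in counterclockwise order, and
`G.arc` says which corners are joined by the arcs), `Shadow.IsKnot`, `Shadow.Checkerboard` (the regions can be
coloured by two colours), `Shadow.Oriented`, `Shadow.sign`, `Shadow.unit n = (-A^3)^(-n)`, `Shadow.f G w o` (the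
normalised bracket; `w i = true` means that at the crossing `i` the strand which joins the corners `1` and `3`
is the upper one), `switch w i` (the crossing `i` is changed), `dd = -A^2 - A^(-2)`, `A = T 1`; and
`Spherical` of `Pool.Agent.Helper43_HT.Defs` (`k + 2` regions).

Let three crossings `i₀, i₁, i₂` of the diagram of a knot in the sphere be the vertices of a triangle: the
corners `(i₀, 1)` and `(i₁, 3)`, the corners `(i₁, 2)` and `(i₂, 1)`, and the corners `(i₂, 0)` and `(i₀, 2)`
are joined by arcs.  So there are three lines, `a` through `i₀` and `i₁`, `b` through `i₁` and `i₂`, `c` through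
`i₂` and `i₀`, which cross each other around the triangle.  (Every triangle can be numbered in this way, and
each of the three lines can be the line `b`.)  If the strand `1`-`3` is upper at `i₀, i₁, i₂` then `a` lies
above `b` and `b` lies above `c`; if the three crossings are changed, then `c` lies above `b` and `b` above
`a`.  If the three crossings are replaced by virtual crossings then we get a virtual diagram whose virtual
crossings form one triangle (a virtual triple point).
-/

namespace Pool.Agent.Helper43_TP

open Finset LaurentPolynomial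
open Pool.Agent.H891R2.HO
open Pool.Agent.Helper43_HT (Spherical)

variable {k : ℕ}

/-- the classical crossings of the virtual diagram -/
abbrev Rest (i₀ i₁ i₂ : Fin k) : Type := {i : Fin k // i ≠ i₀ ∧ i ≠ i₁ ∧ i ≠ i₂}

/-- the number of circles of the state `s` of the virtual diagram: the circles go along the arcs, turn at the
classical crossings as `s` says, and go straight through `i₀, i₁, i₂` -/
noncomputable def loopsV (G : Shadow k) (i₀ i₁ i₂ : Fin k) (s : Rest i₀ i₁ i₂ → Bool) : ℕ :=
  Nat.card (Quot (fun c c' : Fin k × Fin 4 => c' = G.arc c ∨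
    (∃ h : c.1 ≠ i₀ ∧ c.1 ≠ i₁ ∧ c.1 ≠ i₂, c' = (c.1, pair (s ⟨c.1, h⟩) c.2)) ∨
    ((c.1 = i₀ ∨ c.1 = i₁ ∨ c.1 = i₂) ∧ c' = (c.1, c.2 + 2))))

/-- the bracket of the virtual diagram -/
noncomputable def bracketV (G : Shadow k) (w : Fin k → Bool) (i₀ i₁ i₂ : Fin k) : ℤ[T;T⁻¹] :=
  ∑ s : Rest i₀ i₁ i₂ → Bool, T (∑ i, if s i = w i then 1 else -1) * dd ^ (loopsV G i₀ i₁ i₂ s - 1)

/-- the normalised bracket `(-A^3)^(-w) ⟨ ⟩` of the virtual diagram, `w` the writhe of the virtual diagram -/
noncomputable def fV (G : Shadow k) (w : Fin k → Bool) (o : Fin k × Fin 4 → Bool) (i₀ i₁ i₂ : Fin k) :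
    ℤ[T;T⁻¹] :=
  Shadow.unit (∑ i : Rest i₀ i₁ i₂, Shadow.sign w o i) * bracketV G w i₀ i₁ i₂

/-- The situation of the theorem: `(G, w, o)` is an oriented diagram of a knot in the sphere, the crossings
`i₀, i₁, i₂` are the vertices of a triangle, and the strand `1`-`3` is the upper one at `i₀, i₁, i₂`.  (All
diagrams in the sphere are checkerboard colourable.) -/
structure IsTriangle (G : Shadow k) (w : Fin k → Bool) (o : Fin k × Fin 4 → Bool) (i₀ i₁ i₂ : Fin k) :
    Prop where
  checkerboard : G.Checkerboard
  knot : G.IsKnot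
  oriented : G.Oriented o
  spherical : Spherical G
  ne₀₁ : i₀ ≠ i₁
  ne₀₂ : i₀ ≠ i₂
  ne₁₂ : i₁ ≠ i₂
  arc₀₁ : G.arc (i₀, 1) = (i₁, 3)
  arc₁₂ : G.arc (i₁, 2) = (i₂, 1)
  arc₂₀ : G.arc (i₂, 0) = (i₀, 2)
  upper₀ : w i₀ = true
  upper₁ : w i₁ = true
  upper₂ : w i₂ = true

/-- the normalised bracket of the classical diagram with `a` above `b` above `c` -/
noncomputable def fABC (G : Shadow k) (w : Fin k → Bool) (o : Fin k × Fin 4 → Bool) : ℤ[T;T⁻¹] := G.f w o

/-- the normalised bracket of the classical diagram with `c` above `b` above `a` -/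
noncomputable def fCBA (G : Shadow k) (w : Fin k → Bool) (o : Fin k × Fin 4 → Bool) (i₀ i₁ i₂ : Fin k) :
    ℤ[T;T⁻¹] := G.f (switch (switch (switch w i₀) i₁) i₂) o

/-- the sum of the signs of `i₀, i₁, i₂` in the classical diagram with `a` above `b` above `c` -/
def sgn (w : Fin k → Bool) (o : Fin k × Fin 4 → Bool) (i₀ i₁ i₂ : Fin k) : ℤ :=
  Shadow.sign w o i₀ + Shadow.sign w o i₁ + Shadow.sign w o i₂

end Pool.Agent.Helper43_TP
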