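import Pool.Agent.Helper43_TP.Alg

set_option autoImplicit false

/-! The normalised brackets. -/

namespace Pool.Agent.Helper43_TP

open Finset LaurentPolynomial
open Pool.Agent.H891R2.HO
open Pool.Agent.H891R2.HO.O6 (Sup)
open Pool.Agent.Helper43_HT (Spherical sign_pm sign_not sign_same e_knot dd_two unit_sup T_cancel
  sup_unique term_sup)

variable {k : ℕ}

theorem dd_four : (T 4 + T (-4) : ℤ[T;T⁻¹]) = dd ^ 2 - 2 := by
  have h : (T 2 + T (-2) : ℤ[T;T⁻¹]) ^ 2 = T 4 + T (-4) + 2 := by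
    have e1 : (T 2 : ℤ[T;T⁻¹]) ^ 2 = T 4 := by rw [T_pow]; norm_num
    have e2 : (T (-2) : ℤ[T;T⁻¹]) ^ 2 = T (-4) := by rw [T_pow]; norm_num
    have e3 : (T 2 : ℤ[T;T⁻¹]) * T (-2) = 1 := by rw [← T_add]; norm_num
    calc (T 2 + T (-2) : ℤ[T;T⁻¹]) ^ 2 = T 2 ^ 2 + T (-2) ^ 2 + 2 * (T 2 * T (-2)) := by ring
      _ = _ := by rw [e1, e2, e3]; ring
  rw [dd_two] at h
  linear_combination -h

theorem comb (a W : ℤ) : (T 1 * T (a + W) + T (-1) * T (-a + W) : ℤ[T;T⁻¹]) =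
    T W * (T (a + 1) + T (-(a + 1))) := by
  rw [← T_add, ← T_add, mul_add, ← T_add, ← T_add]
  congr 2
  · ring
  · ring

/-- the coefficient of a state -/
noncomputable def M (x y z : Bool) : ℤ[T;T⁻¹] :=
  T (cs x + cs y + cs z + 1) + T (-(cs x + cs y + cs z + 1))

theorem M_four : M true true true = dd ^ 2 - 2 := by
  rw [← dd_four]; unfold M cs; norm_num

theorem M_two : M true true false = -dd ∧ M true false true = -dd ∧ M false true true = -dd := by
  rw [← dd_two]; unfold M cs; norm_num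

theorem M_zero : M true false false = 2 ∧ M false true false = 2 ∧ M false false true = 2 := by
  unfold M cs; norm_num

theorem M_neg : M false false false = -dd := by
  rw [← dd_two]; unfold M cs; norm_num; ring

theorem brackets (G : Shadow k) (w w' : Fin k → Bool) (i₀ i₁ i₂ : Fin k) (hG : G.Checkerboard)
    (hK : G.IsKnot) (hS : Spherical G) (n1 : i₀ ≠ i₁) (n2 : i₀ ≠ i₂) (n3 : i₁ ≠ i₂)
    (a01 : G.arc (i₀, 1) = (i₁, 3)) (a12 : G.arc (i₁, 2) = (i₂, 1)) (a20 : G.arc (i₂, 0) = (i₀, 2))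
    (w0 : w i₀ = true) (w1 : w i₁ = true) (w2 : w i₂ = true)
    (w0' : w' i₀ = false) (w1' : w' i₁ = false) (w2' : w' i₂ = false)
    (hw : ∀ i : Rest i₀ i₁ i₂, w' i = w i) :
    T 1 * G.bracket w + T (-1) * G.bracket w' = -((T 4 + T (-4)) * bracketV G w i₀ i₁ i₂) := by
  have h1 : T 1 * G.bracket w + T (-1) * G.bracket w' =
      ∑ S : Fin k → Bool, (T 1 * T (∑ i, if S i = w i then (1 : ℤ) else -1) +
        T (-1) * T (∑ i, if S i = w' i then (1 : ℤ) else -1)) * dd ^ (G.loops S - 1) := by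
    unfold Shadow.bracket
    rw [Finset.mul_sum, Finset.mul_sum, ← Finset.sum_add_distrib]
    refine Finset.sum_congr rfl fun S _ => ?_
    ring
  have h2 : ∀ t x y z, (T 1 * T (∑ i, if st i₀ i₁ i₂ t x y z i = w i then (1 : ℤ) else -1) +
        T (-1) * T (∑ i, if st i₀ i₁ i₂ t x y z i = w' i then (1 : ℤ) else -1)) *
        dd ^ (G.loops (st i₀ i₁ i₂ t x y z) - 1) =
      T (wt w i₀ i₁ i₂ t) * (M x y z * dd ^ (G.loops (st i₀ i₁ i₂ t x y z) - 1)) := by
    intro t x y z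
    rw [wt_true w i₀ i₁ i₂ n1 n2 n3 w0 w1 w2, wt_false w w' i₀ i₁ i₂ n1 n2 n3 w0' w1' w2' hw, comb]
    unfold M
    ring
  rw [h1, sum_st i₀ i₁ i₂ n1 n2 n3]
  simp only [h2]
  unfold bracketV
  rw [Finset.mul_sum, ← Finset.sum_neg_distrib]
  refine Finset.sum_congr rfl fun t _ => ?_
  have hk := key G hG hK hS i₀ i₁ i₂ n1 n2 n3 a01 a12 a20 t
  rw [M_four, M_two.1, M_two.2.1, M_two.2.2, M_zero.1, M_zero.2.1, M_zero.2.2, M_neg, dd_four]
  change _ = -((dd ^ 2 - 2) * (T (wt w i₀ i₁ i₂ t) * dd ^ (loopsV G i₀ i₁ i₂ t - 1)))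
  linear_combination T (wt w i₀ i₁ i₂ t) * hk

theorem unit_add_odd (a b : ℤ) (hb : Odd b) :
    Shadow.unit (a + b) = -(Shadow.unit a * T (-3 * b)) := by
  unfold Shadow.unit
  have h1 : Even (a + b) ↔ ¬ Even a := by
    rw [Int.even_add]
    have : ¬ Even b := Int.not_even_iff_odd.2 hb
    tauto
  have h2 : (T (-3 * (a + b)) : ℤ[T;T⁻¹]) = T (-3 * a) * T (-3 * b) := by
    rw [← T_add]; congr 1; ring
  rw [h2]
  by_cases ha : Even a
  · rw [if_pos ha, if_neg (fun h => (h1.1 h) ha)]; ring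
  · rw [if_neg ha, if_pos (h1.2 ha)]; ring

theorem sgn_cases (w : Fin k → Bool) (o : Fin k × Fin 4 → Bool) (i₀ i₁ i₂ : Fin k) :
    sgn w o i₀ i₁ i₂ = 1 ∨ sgn w o i₀ i₁ i₂ = -1 ∨ sgn w o i₀ i₁ i₂ = 3 ∨ sgn w o i₀ i₁ i₂ = -3 := by
  unfold sgn
  rcases sign_pm w o i₀ with h | h <;> rcases sign_pm w o i₁ with h' | h' <;>
    rcases sign_pm w o i₂ with h'' | h'' <;> rw [h, h', h''] <;> norm_num

/-- the relation -/
theorem main (G : Shadow k) (w : Fin k → Bool) (o : Fin k × Fin 4 → Bool) (i₀ i₁ i₂ : Fin k)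
    (h : IsTriangle G w o i₀ i₁ i₂) :
    T (3 * sgn w o i₀ i₁ i₂ + 1) * fABC G w o + T (-(3 * sgn w o i₀ i₁ i₂ + 1)) * fCBA G w o i₀ i₁ i₂ =
      (T 4 + T (-4)) * fV G w o i₀ i₁ i₂ := by
  obtain ⟨hG, hK, ho, hS, n1, n2, n3, a01, a12, a20, w0, w1, w2⟩ := h
  set w' := switch (switch (switch w i₀) i₁) i₂ with hw'
  have w0' : w' i₀ = false := by
    rw [hw']; unfold switch
    rw [Function.update_of_ne n2, Function.update_of_ne n1, Function.update_self, w0]; rfl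
  have w1' : w' i₁ = false := by
    rw [hw']; unfold switch
    rw [Function.update_of_ne n3, Function.update_self, Function.update_of_ne (Ne.symm n1), w1]; rfl
  have w2' : w' i₂ = false := by
    rw [hw']; unfold switch
    rw [Function.update_self, Function.update_of_ne (Ne.symm n3), Function.update_of_ne (Ne.symm n2),
      w2]; rfl
  have hw : ∀ i : Rest i₀ i₁ i₂, w' i = w i := by
    intro i
    rw [hw']; unfold switch
    rw [Function.update_of_ne i.2.2.2, Function.update_of_ne i.2.2.1, Function.update_of_ne i.2.1]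
  have hb := brackets G w w' i₀ i₁ i₂ hG hK hS n1 n2 n3 a01 a12 a20 w0 w1 w2 w0' w1' w2' hw
  set m := sgn w o i₀ i₁ i₂ with hm
  have hodd : Odd m := by
    rcases sgn_cases w o i₀ i₁ i₂ with h | h | h | h <;> rw [hm, h] <;> decide
  set V : ℤ := ∑ i : Rest i₀ i₁ i₂, Shadow.sign w o i with hV
  have hW : ∑ i, Shadow.sign w o i = V + m := by
    rw [sum_rest i₀ i₁ i₂ n1 n2 n3, hm, sgn, hV]; ring
  have hW' : ∑ i, Shadow.sign w' o i = V + -m := by
    rw [sum_rest i₀ i₁ i₂ n1 n2 n3, sign_not w w' o i₀ (by rw [w0', w0]; rfl),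
      sign_not w w' o i₁ (by rw [w1', w1]; rfl), sign_not w w' o i₂ (by rw [w2', w2]; rfl), hm, sgn, hV]
    have : ∑ i : Rest i₀ i₁ i₂, Shadow.sign w' o i = ∑ i : Rest i₀ i₁ i₂, Shadow.sign w o i :=
      Finset.sum_congr rfl fun i _ => sign_same w w' o i (hw i)
    rw [this]; ring
  unfold fABC fCBA fV Shadow.f
  rw [← hw', hW, hW', unit_add_odd V m hodd, unit_add_odd V (-m) hodd.neg, ← hV]
  have t1 : (T (3 * m + 1) : ℤ[T;T⁻¹]) * T (-3 * m) = T 1 := by
    rw [← T_add]; congr 1; ring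
  have t2 : (T (-(3 * m + 1)) : ℤ[T;T⁻¹]) * T (-3 * -m) = T (-1) := by
    rw [← T_add]; congr 1; ring
  linear_combination -(Shadow.unit V * G.bracket w) * t1 -
    (Shadow.unit V * G.bracket w') * t2 - Shadow.unit V * hb

/-- the exponents of the normalised bracket of a classical knot -/
theorem f_sup (G : Shadow k) (hG : G.Checkerboard) (hK : G.IsKnot) (w : Fin k → Bool)
    (o : Fin k × Fin 4 → Bool) (ho : G.Oriented o) : Sup 0 (G.f w o) := by
  obtain ⟨hpar, hE⟩ := e_knot G hG hK w o ho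
  set W := ∑ i, Shadow.sign w o i with hW
  have hb : Sup (W + 2 * k) (G.bracket w) := by
    unfold Shadow.bracket
    refine Sup.sum _ _ fun S _ => ?_
    apply term_sup
    have h1 := hE S
    unfold O6.e at h1
    by_cases hk : Nonempty (Fin k)
    · obtain ⟨i⟩ := hk
      have h3 := O3.loops_pos G i S
      have h4 : ((G.loops S - 1 : ℕ) : ℤ) = (G.loops S : ℤ) - 1 := by omega
      rw [h4]
      exact h1
    · exfalso
      have hk' : IsEmpty (Fin k) := not_nonempty_iff.1 hk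
      have : Nat.card (Quot (fun c c' : Fin k × Fin 4 => c' = G.arc c ∨ c' = (c.1, c.2 + 2))) = 0 := by
        have : IsEmpty (Quot (fun c c' : Fin k × Fin 4 => c' = G.arc c ∨ c' = (c.1, c.2 + 2))) :=
          ⟨by rintro ⟨c⟩; exact hk'.false c.1⟩
        exact Nat.card_of_isEmpty
      unfold Shadow.IsKnot at hK
      omega
  unfold Shadow.f
  rw [← hW]
  refine (unit_sup W _ _ hb).congr ?_
  omega

theorem four_ne : (T 4 + T (-4) : ℤ[T;T⁻¹]) ≠ 0 := by
  intro h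
  have h5 : (T 4 + T (-4) : ℤ[T;T⁻¹]).coeff 4 = 0 := by rw [h]; rfl
  simp only [AddMonoidAlgebra.coeff_add, Finsupp.add_apply, Pool.Agent.Helper43_HT.coeff_T] at h5
  norm_num at h5

theorem main_iff (G : Shadow k) (w : Fin k → Bool) (o : Fin k × Fin 4 → Bool) (i₀ i₁ i₂ : Fin k)
    (h : IsTriangle G w o i₀ i₁ i₂) :
    fV G w o i₀ i₁ i₂ = 1 ↔ T (3 * sgn w o i₀ i₁ i₂ + 1) * fABC G w o +
      T (-(3 * sgn w o i₀ i₁ i₂ + 1)) * fCBA G w o i₀ i₁ i₂ = T 4 + T (-4) := by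
  rw [main G w o i₀ i₁ i₂ h]
  constructor
  · intro h1; rw [h1, mul_one]
  · intro h1
    have h2 : (T 4 + T (-4)) * (fV G w o i₀ i₁ i₂ - 1) = 0 := by linear_combination h1
    rcases mul_eq_zero.1 h2 with h3 | h3
    · exact absurd h3 four_ne
    · exact sub_eq_zero.1 h3

theorem sup_mul_four {m : ℤ} {p : ℤ[T;T⁻¹]} (hp : Sup m p) : Sup m ((T 4 + T (-4)) * p) := by
  have e : (T 4 + T (-4)) * p = p * T 4 + p * T (-4) := by ring
  rw [e]
  exact ((hp.mul_T 4).congr (by omega)).add ((hp.mul_T (-4)).congr (by omega))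

theorem sgn_of_exponents (G : Shadow k) (w : Fin k → Bool) (o : Fin k × Fin 4 → Bool)
    (i₀ i₁ i₂ : Fin k) (h : IsTriangle G w o i₀ i₁ i₂)
    (h0 : fV G w o i₀ i₁ i₂ ≠ 0) (h4 : ∀ j : ℤ, (fV G w o i₀ i₁ i₂).coeff j ≠ 0 → (4 : ℤ) ∣ j) :
    sgn w o i₀ i₁ i₂ = 1 ∨ sgn w o i₀ i₁ i₂ = -3 := by
  have hm := main G w o i₀ i₁ i₂ h
  have s1 : Sup 0 (fABC G w o) := f_sup G h.checkerboard h.knot w o h.oriented
  have s2 : Sup 0 (fCBA G w o i₀ i₁ i₂) := f_sup G h.checkerboard h.knot _ o h.oriented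
  have s3 : Sup 0 (fV G w o i₀ i₁ i₂) := by
    intro j hj
    rw [sub_zero]
    exact h4 j hj
  have s4 := sup_mul_four s3
  have hz : (T 4 + T (-4)) * fV G w o i₀ i₁ i₂ ≠ 0 := mul_ne_zero four_ne h0
  have s5 : Sup (3 * sgn w o i₀ i₁ i₂ + 1) ((T 4 + T (-4)) * fV G w o i₀ i₁ i₂) := by
    rw [← hm, mul_comm (T _) (fABC G w o), mul_comm (T _) (fCBA G w o i₀ i₁ i₂)]
    refine Sup.add ((s1.mul_T _).congr ?_) ((s2.mul_T _).congr ?_)
    · rw [zero_add, sub_self]; exact dvd_zero 4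
    · rcases sgn_cases w o i₀ i₁ i₂ with h | h | h | h <;> rw [h] <;> norm_num
  have hex : ∃ j, ((T 4 + T (-4)) * fV G w o i₀ i₁ i₂).coeff j ≠ 0 := by
    by_contra hc
    push Not at hc
    apply hz
    apply O7.ext_coeff
    intro j
    rw [hc j]; rfl
  obtain ⟨j, hj⟩ := hex
  have d1 := s4 j hj
  have d2 := s5 j hj
  rcases sgn_cases w o i₀ i₁ i₂ with h | h | h | h
  · exact Or.inl h
  · exfalso; rw [h] at d2; omega
  · exfalso; rw [h] at d2; omega
  · exact Or.inr h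

theorem unit_exponents (G : Shadow k) (w : Fin k → Bool) (o : Fin k × Fin 4 → Bool)
    (i₀ i₁ i₂ : Fin k) (h : IsTriangle G w o i₀ i₁ i₂) (h1 : fV G w o i₀ i₁ i₂ = 1) :
    sgn w o i₀ i₁ i₂ = 1 ∨ sgn w o i₀ i₁ i₂ = -3 := by
  apply sgn_of_exponents G w o i₀ i₁ i₂ h
  · rw [h1]; exact one_ne_zero
  · rw [h1]
    intro j hj
    have := Sup.one j hj
    rw [sub_zero] at this
    exact this

theorem case_one (a b : ℤ[T;T⁻¹]) (h : T 4 * a + T (-4) * b = T 4 + T (-4)) : a = 1 ↔ b = 1 := by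
  have h1 : T 4 * (a - 1) = -(T (-4) * (b - 1)) := by linear_combination h
  constructor
  · intro h2
    rw [h2, sub_self, mul_zero] at h1
    exact sub_eq_zero.1 (T_cancel _ _ (neg_eq_zero.1 h1.symm))
  · intro h2
    rw [h2, sub_self, mul_zero, neg_zero] at h1
    exact sub_eq_zero.1 (T_cancel _ _ h1)

theorem case_three (a b : ℤ[T;T⁻¹]) (h : T (-8) * a + T 8 * b = T 4 + T (-4)) :
    (a = 1 ↔ b = T (-4) + T (-12) - T (-16)) ∧ (b = 1 ↔ a = T 4 + T 12 - T 16) := by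
  have e1 : (T 8 : ℤ[T;T⁻¹]) * (T (-4) + T (-12) - T (-16)) = T 4 + T (-4) - T (-8) := by
    rw [mul_sub, mul_add, ← T_add, ← T_add, ← T_add]; norm_num
  have e2 : (T (-8) : ℤ[T;T⁻¹]) * (T 4 + T 12 - T 16) = T 4 + T (-4) - T 8 := by
    rw [mul_sub, mul_add, ← T_add, ← T_add, ← T_add]; norm_num; ring
  refine ⟨⟨fun h2 => ?_, fun h2 => ?_⟩, ⟨fun h2 => ?_, fun h2 => ?_⟩⟩
  · rw [h2] at h
    have h3 : T 8 * (b - (T (-4) + T (-12) - T (-16))) = 0 := by linear_combination h - e1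
    exact sub_eq_zero.1 (T_cancel _ _ h3)
  · rw [h2] at h
    have h3 : T (-8) * (a - 1) = 0 := by linear_combination h - e1
    exact sub_eq_zero.1 (T_cancel _ _ h3)
  · rw [h2] at h
    have h3 : T (-8) * (a - (T 4 + T 12 - T 16)) = 0 := by linear_combination h - e2
    exact sub_eq_zero.1 (T_cancel _ _ h3)
  · rw [h2] at h
    have h3 : T 8 * (b - 1) = 0 := by linear_combination h - e2
    exact sub_eq_zero.1 (T_cancel _ _ h3)

theorem trefoil_ne : (T (-4) + T (-12) - T (-16) : ℤ[T;T⁻¹]) ≠ 1 := by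
  intro h
  have h6 : (T (-4) + T (-12) : ℤ[T;T⁻¹]) = 1 + T (-16) := by linear_combination h
  have h5 : (T (-4) + T (-12) : ℤ[T;T⁻¹]).coeff 0 = (1 + T (-16) : ℤ[T;T⁻¹]).coeff 0 := by rw [h6]
  rw [← T_zero] at h5
  simp only [AddMonoidAlgebra.coeff_add, Finsupp.add_apply, Pool.Agent.Helper43_HT.coeff_T] at h5
  norm_num at h5

end Pool.Agent.Helper43_TP
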