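import Pool.Agent.Helper43_TP.Defs

set_option autoImplicit false

/-! The curve of an opened state which begins at an end. -/

namespace Pool.Agent.Helper43_TP

open Finset
open Pool.Agent.H891R2.HO
open Pool.Agent.H891R2.HO.O2 (flow chi_pair pair_pair)
open Pool.Agent.Helper43_HT (flow_t flow_f chi_flow)

variable {k : ℕ}

/-- two corners are joined by an arc or in the smoothing of a crossing outside `Z` -/
def OpenedP (G : Shadow k) (Z : Fin k → Prop) (s : Fin k → Bool) (c c' : Fin k × Fin 4) : Prop :=
  c' = G.arc c ∨ (¬ Z c.1 ∧ c' = (c.1, pair (s c.1) c.2))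

/-- the corner is at a crossing of `Z` -/
def AtP (Z : Fin k → Prop) (c : Fin k × Fin 4) : Prop := Z c.1

section path

variable (G : Shadow k) (Z : Fin k → Prop) (s : Fin k → Bool) (χ : Fin k × Fin 4 → Bool)
  (h1 : ∀ c, χ (G.arc c) = !(χ c)) (h2 : ∀ i j, χ (i, j + 1) = !(χ (i, j)))

theorem mk_flow (c : Fin k × Fin 4) (h : χ c = true → ¬ AtP Z c) :
    OpenedP G Z s c (flow G s χ h1 h2 c) := by
  unfold OpenedP
  by_cases hc : χ c = true
  · right
    have := h hc
    unfold AtP at this
    exact ⟨this, flow_t G s χ h1 h2 c hc⟩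
  · have h0 : χ c = false := by simpa using hc
    left
    exact flow_f G s χ h1 h2 c h0

include h1 h2 in
/-- The curve which begins at an end `e` of colour `false` ends at an end `x` of colour `true`, and contains
no other ends. -/
theorem path (e : Fin k × Fin 4) (he : χ e = false) (hAt : AtP Z e) :
    ∃ x, χ x = true ∧ AtP Z x ∧
      Quot.mk (OpenedP G Z s) e = Quot.mk (OpenedP G Z s) x ∧
      ∀ c, Quot.mk (OpenedP G Z s) e = Quot.mk (OpenedP G Z s) c →
        AtP Z c → c = e ∨ c = x := by
  classical
  set φ := flow G s χ h1 h2 with hφ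
  have hex : ∃ n : ℕ, χ ((φ ^ n) e) = true ∧ AtP Z ((φ ^ n) e) := by
    have hn := orderOf_pos φ
    obtain ⟨m, hm⟩ : ∃ m, orderOf φ = m + 1 := ⟨orderOf φ - 1, by omega⟩
    have e2 := pow_orderOf_eq_one φ
    rw [hm, pow_succ'] at e2
    have e3 : φ ((φ ^ m) e) = e := by
      have := congrArg (fun g : Equiv.Perm (Fin k × Fin 4) => g e) e2
      simpa using this
    have e4 : χ ((φ ^ m) e) = true := by
      have := chi_flow G s χ h1 h2 ((φ ^ m) e)
      rw [← hφ, e3, he] at this
      simpa using this.symm
    refine ⟨m, e4, ?_⟩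
    have e5 := flow_t G s χ h1 h2 ((φ ^ m) e) e4
    rw [← hφ, e3] at e5
    have e6 : e.1 = ((φ ^ m) e).1 := by
      have := congrArg Prod.fst e5
      exact this
    unfold AtP at hAt ⊢
    rw [← e6]; exact hAt
  set N := Nat.find hex with hN
  have hNs := Nat.find_spec hex
  have hNm : ∀ n, n < N → χ ((φ ^ n) e) = true → ¬ AtP Z ((φ ^ n) e) := by
    intro n hn hc hat
    exact Nat.find_min hex hn ⟨hc, hat⟩
  rw [← hN] at hNs
  have hsucc : ∀ n, (φ ^ (n + 1)) e = φ ((φ ^ n) e) := by
    intro n
    rw [pow_succ', Equiv.Perm.mul_apply]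
  have hmk : ∀ n, n ≤ N → Quot.mk (OpenedP G Z s) e =
      Quot.mk (OpenedP G Z s) ((φ ^ n) e) := by
    intro n
    induction n with
    | zero => intro _; rfl
    | succ n ih =>
      intro hn
      rw [ih (by omega), hsucc]
      exact Quot.sound (mk_flow G Z s χ h1 h2 _ (hNm n (by omega)))
  refine ⟨(φ ^ N) e, hNs.1, hNs.2, hmk N le_rfl, ?_⟩
  -- the set of the corners of the curve
  set P : Fin k × Fin 4 → Prop := fun c => ∃ n, n ≤ N ∧ c = (φ ^ n) e with hP
  have hstep : ∀ c c', OpenedP G Z s c c' → P c → P c' := by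
    rintro c c' hcc ⟨n, hn, rfl⟩
    unfold OpenedP at hcc
    rcases hcc with hcc | ⟨hne, hcc⟩
    · by_cases hc : χ ((φ ^ n) e) = true
      · obtain ⟨m, rfl⟩ : ∃ m, n = m + 1 := by
          refine ⟨n - 1, ?_⟩
          have : n ≠ 0 := by
            rintro rfl
            rw [pow_zero, Equiv.Perm.one_apply, he] at hc
            exact Bool.false_ne_true hc
          omega
        rw [hsucc] at hc hcc
        have hf : χ ((φ ^ m) e) = false := by
          have := chi_flow G s χ h1 h2 ((φ ^ m) e)
          rw [← hφ, hc] at this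
          simpa using this.symm
        have := flow_f G s χ h1 h2 _ hf
        rw [← hφ] at this
        rw [this, G.arc_arc] at hcc
        exact ⟨m, by omega, hcc⟩
      · have hf : χ ((φ ^ n) e) = false := by simpa using hc
        have hlt : n < N := by
          rcases Nat.lt_or_ge n N with h | h
          · exact h
          · have : n = N := le_antisymm hn h
            rw [this] at hc
            exact absurd hNs.1 hc
        have := flow_f G s χ h1 h2 _ hf
        rw [← hφ] at this
        exact ⟨n + 1, by omega, by rw [hsucc, this, hcc]⟩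
    · have hnat : ¬ AtP Z ((φ ^ n) e) := by
        exact hne
      by_cases hc : χ ((φ ^ n) e) = true
      · have hlt : n < N := by
          rcases Nat.lt_or_ge n N with h | h
          · exact h
          · have : n = N := le_antisymm hn h
            rw [this] at hnat
            exact absurd hNs.2 hnat
        have := flow_t G s χ h1 h2 _ hc
        rw [← hφ] at this
        exact ⟨n + 1, by omega, by rw [hsucc, this, hcc]⟩
      · have hf : χ ((φ ^ n) e) = false := by simpa using hc
        obtain ⟨m, rfl⟩ : ∃ m, n = m + 1 := by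
          refine ⟨n - 1, ?_⟩
          have : n ≠ 0 := by
            rintro rfl
            rw [pow_zero, Equiv.Perm.one_apply] at hnat
            exact hnat hAt
          omega
        rw [hsucc] at hf hcc
        have ht : χ ((φ ^ m) e) = true := by
          have := chi_flow G s χ h1 h2 ((φ ^ m) e)
          rw [← hφ, hf] at this
          simpa using this.symm
        have := flow_t G s χ h1 h2 _ ht
        rw [← hφ] at this
        rw [this] at hcc
        refine ⟨m, by omega, ?_⟩
        rw [hcc]
        show (((φ ^ m) e).1, pair (s ((φ ^ m) e).1) (pair (s ((φ ^ m) e).1) ((φ ^ m) e).2)) = _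
        rw [pair_pair]
  have hsymm : ∀ c c', OpenedP G Z s c c' → OpenedP G Z s c' c := by
    intro c c' h
    unfold OpenedP at h ⊢
    rcases h with h | ⟨h, h'⟩
    · left; rw [h, G.arc_arc]
    · right
      rw [h']
      refine ⟨h, ?_⟩
      show c = (c.1, pair (s c.1) (pair (s c.1) c.2))
      rw [pair_pair]
  have hiff : ∀ c c', OpenedP G Z s c c' → P c = P c' := by
    intro c c' h
    exact propext ⟨hstep c c' h, hstep c' c (hsymm c c' h)⟩
  intro c hc hatc
  have hPe : P e := ⟨0, Nat.zero_le _, rfl⟩
  have hPc : P c := by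
    have := congrArg (Quot.lift P hiff) hc
    have h3 : P e = P c := this
    rw [← h3]; exact hPe
  obtain ⟨n, hn, rfl⟩ := hPc
  by_cases hc' : χ ((φ ^ n) e) = true
  · right
    have : ¬ n < N := fun h => hNm n h hc' hatc
    have : n = N := by omega
    rw [this]
  · have hf : χ ((φ ^ n) e) = false := by simpa using hc'
    left
    rcases Nat.eq_zero_or_pos n with h0 | h0
    · rw [h0]; rfl
    · exfalso
      obtain ⟨m, rfl⟩ : ∃ m, n = m + 1 := ⟨n - 1, by omega⟩
      rw [hsucc] at hf hatc
      have ht : χ ((φ ^ m) e) = true := by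
        have := chi_flow G s χ h1 h2 ((φ ^ m) e)
        rw [← hφ, hf] at this
        simpa using this.symm
      have h5 := flow_t G s χ h1 h2 _ ht
      rw [← hφ] at h5
      rw [h5] at hatc
      exact hNm m (by omega) ht hatc

end path

end Pool.Agent.Helper43_TP
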